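import Pool.Agent.Q162.SymSet.Rect

/-!
# Minimal symmetric sets of permutations are Schur-positive

Let `n ≥ 2` and let `S` be a set of permutations of `{1, …, n}` such that `𝒬(S)` is a symmetric
function, `|S| = n - 1` and `S` contains neither the identity nor the reversal. Then `𝒬(S)` is
Schur-positive; in fact `𝒬(S)` is `s_{(n-1,1)}`, or `s_{(2,1^{n-2})}`, or `n = 6` and `𝒬(S)` is
`s_{(3,3)}` or `s_{(2,2,2)}`.
-/

namespace Pool.Agent.Results.MP_8fe44f_co.SchurPositive

open Q162SS

theorem pos_of_eq (n : ℕ) (f : Ser) (μ : YoungDiagram) (hμ : μ.card = n) (h : f = schur μ) :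
    IsSchurPositive n f := by
  refine ⟨Finsupp.single μ 1, ?_, ?_⟩
  · intro ν hν
    have := Finsupp.support_single_subset hν
    rw [Finset.mem_singleton] at this
    rw [this, hμ]
  · rw [Finsupp.sum_single_index (by rw [zero_smul]), one_smul, h]

theorem result (n : ℕ) (hn : 2 ≤ n) (S : Finset (Equiv.Perm (Fin n)))
    (hsym : IsSymmetric (quasi S)) (hcard : S.card = n - 1)
    (hid : (1 : Equiv.Perm (Fin n)) ∉ S) (hrev : (Fin.revPerm : Equiv.Perm (Fin n)) ∉ S) :
    IsSchurPositive n (quasi S) ∧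
      (quasi S = schur (twoRow (n - 1) (by omega)) ∨
        quasi S = schur (twoRow (n - 1) (by omega)).transpose ∨
        (n = 6 ∧ (quasi S = schur mu33 ∨ quasi S = schur mu33.transpose))) := by
  have hN : Nat.card {π // π ∈ S} = n - 1 := by
    rw [Nat.card_eq_fintype_card, Fintype.card_coe, hcard]
  have hnm : ∀ π : {π // π ∈ S}, des π.1 ≠ ∅ ∧ des π.1 ≠ Finset.Icc 1 (n - 1) := by
    rintro ⟨π, hπ⟩
    constructor
    · intro h
      rw [des_empty π h] at hπ
      exact hid hπ
    · intro h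
      rw [des_full π h] at hπ
      exact hrev hπ
  obtain ⟨a, rfl⟩ : ∃ a, n = a + 1 := ⟨n - 1, by omega⟩
  have hcl := classify (a + 1) hn {π // π ∈ S} (fun π => des π.1) (fun π => des_sub π.1)
    (symData_quasi S hsym) hnm (by omega) (by omega)
  rcases hcl with ⟨_, h | h | ⟨h6, h | h⟩⟩ | ⟨h4, h2⟩
  · have e : quasi S = schur (twoRow (a + 1 - 1) (by omega)) := by
      rw [quasi_of_exact S _ h]
      exact (schur_twoRow a (by omega)).symm
    exact ⟨pos_of_eq _ _ _ (card_twoRow a (by omega)) e, Or.inl e⟩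
  · have e : quasi S = schur (twoRow (a + 1 - 1) (by omega)).transpose := by
      rw [quasi_of_exact S _ h]
      exact (schur_twoRow_tr a (by omega)).symm
    exact ⟨pos_of_eq _ _ _ (card_twoRow_tr a (by omega)) e, Or.inr (Or.inl e)⟩
  · have ha : a = 5 := by omega
    subst ha
    have e : quasi S = schur mu33 := by
      rw [quasi_of_exact S _ h, schur_mu33]
    exact ⟨pos_of_eq _ _ _ card_mu33 e, Or.inr (Or.inr ⟨rfl, Or.inl e⟩)⟩
  · have ha : a = 5 := by omega
    subst ha
    have e : quasi S = schur mu33.transpose := by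
      rw [quasi_of_exact S _ h, schur_mu33_tr]
    exact ⟨pos_of_eq _ _ _ card_mu33_tr e, Or.inr (Or.inr ⟨rfl, Or.inr e⟩)⟩
  · omega

end Pool.Agent.Results.MP_8fe44f_co.SchurPositive
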